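import Mathlib

/-!
# The equational theory of representable implication semigroups is not finitely based

For every `k` and every set `E` of equations in `k` variables that are valid in all representable
implication semigroups there is a finite algebra `(A, →, ;)` that satisfies `E` and fails some
equation valid in all representable implication semigroups.
-/

namespace Pool.Agent.Results.MP_634bde_lc.NoFiniteBasis

universe u v w

/-! ## Definitions used in the statement -/

/-- An algebra of the signature `(→, ;)` on the carrier `A`. -/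
structure Alg (A : Type u) where
  /-- the operation `→` -/
  imp : A → A → A
  /-- the operation `;` -/
  comp : A → A → A

/-- Homomorphisms of algebras of the signature `(→, ;)`. -/
structure IsHom {A : Type u} {B : Type v} (S : Alg A) (S' : Alg B) (f : A → B) : Prop where
  imp : ∀ a b, f (S.imp a b) = S'.imp (f a) (f b)
  comp : ∀ a b, f (S.comp a b) = S'.comp (f a) (f b)

/-- `T ⊆ X × X` is transitive. -/
def IsTransRel {X : Type w} (T : Set (X × X)) : Prop :=
  ∀ x y z, (x, y) ∈ T → (y, z) ∈ T → (x, z) ∈ T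

/-- The full implication semigroup `𝔖(T)`: subsets of `T` with `a → b = (T ∖ a) ∪ b` and
relational composition. -/
def full {X : Type w} (T : Set (X × X)) (hT : IsTransRel T) :
    Alg {a : Set (X × X) // a ⊆ T} where
  imp a b := ⟨(T \ a.1) ∪ b.1, Set.union_subset Set.sdiff_subset b.2⟩
  comp a b := ⟨{p | ∃ y, (p.1, y) ∈ a.1 ∧ (y, p.2) ∈ b.1}, by
    rintro ⟨x, z⟩ ⟨y, h1, h2⟩
    exact hT x y z (a.2 h1) (b.2 h2)⟩

/-- Representable implication semigroups: the algebra embeds into `𝔖(T)` for a transitive
relation `T` on a set `X`. -/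
def Representable {A : Type u} (S : Alg A) : Prop :=
  ∃ (X : Type w) (T : Set (X × X)) (hT : IsTransRel T) (f : A → {a : Set (X × X) // a ⊆ T}),
    Function.Injective f ∧ IsHom S (full T hT) f

/-- Terms in the signature `(→, ;)` with variables indexed by `ℕ`. -/
inductive Tm
  | var : ℕ → Tm
  | imp : Tm → Tm → Tm
  | comp : Tm → Tm → Tm

/-- The value of a term in an algebra. -/
def Tm.eval {A : Type u} (S : Alg A) (v : ℕ → A) : Tm → A
  | .var n => v n
  | .imp s t => S.imp (s.eval S v) (t.eval S v)
  | .comp s t => S.comp (s.eval S v) (t.eval S v)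

/-- All variables of the term are among the first `k` variables. -/
def Tm.Below (k : ℕ) : Tm → Prop
  | .var n => n < k
  | .imp s t => s.Below k ∧ t.Below k
  | .comp s t => s.Below k ∧ t.Below k

/-- The algebra satisfies the equation. -/
def Alg.Sat {A : Type u} (S : Alg A) (e : Tm × Tm) : Prop :=
  ∀ v : ℕ → A, e.1.eval S v = e.2.eval S v

/-- The equation belongs to `Eq`: it holds in every representable implication semigroup. -/
def Valid (e : Tm × Tm) : Prop :=
  ∀ (A : Type u) (S : Alg A), Representable.{u, u} S → S.Sat e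

/-- The equational theory of representable implication semigroups is finitely axiomatisable: some
finite set `E` of equations has exactly the valid equations as its consequences. -/
def FinitelyAxiomatisable : Prop :=
  ∃ E : Set (Tm × Tm), E.Finite ∧
    ∀ e : Tm × Tm, Valid.{u} e ↔ ∀ (A : Type u) (S : Alg A), (∀ e' ∈ E, S.Sat e') → S.Sat e

/-! ## Ramsey's theorem for triangles -/

theorem ramsey (C : Type) [DecidableEq C] : ∀ m : ℕ, ∃ N : ℕ, ∀ K : Finset C, K.card ≤ m →
    ∀ s : Finset ℕ, N ≤ s.card → ∀ col : ℕ → ℕ → C,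
      (∀ i ∈ s, ∀ j ∈ s, i < j → col i j ∈ K) →
      ∃ i ∈ s, ∃ j ∈ s, ∃ k ∈ s, i < j ∧ j < k ∧ col i j = col j k ∧ col i j = col i k := by
  intro m
  induction m with
  | zero =>
    refine ⟨2, fun K hK s hs col hcol => ?_⟩
    have hK0 : K = ∅ := Finset.card_eq_zero.mp (Nat.le_zero.mp hK)
    obtain ⟨a, ha, b, hb, hab⟩ := Finset.one_lt_card.mp (show 1 < s.card by omega)
    exfalso
    rcases lt_or_gt_of_ne hab with h | h
    · have := hcol a ha b hb h
      rw [hK0] at this
      simp at this
    · have := hcol b hb a ha h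
      rw [hK0] at this
      simp at this
  | succ m ih =>
    obtain ⟨N, hN⟩ := ih
    refine ⟨(m + 1) * N + 2, fun K hK s hs col hcol => ?_⟩
    have hne : s.Nonempty := Finset.card_pos.mp (by omega)
    set i0 := s.min' hne with hi0
    have hi0s : i0 ∈ s := Finset.min'_mem s hne
    set s' := s.erase i0 with hs'
    have hcard : s'.card = s.card - 1 := Finset.card_erase_of_mem hi0s
    have hlt : ∀ j ∈ s', i0 < j := fun j hj =>
      lt_of_le_of_ne (Finset.min'_le s j (Finset.mem_of_mem_erase hj))
        (Ne.symm (Finset.ne_of_mem_erase hj))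
    have hmaps : ∀ j ∈ s', col i0 j ∈ K := fun j hj =>
      hcol i0 hi0s j (Finset.mem_of_mem_erase hj) (hlt j hj)
    have hKne : K.Nonempty := by
      have : s'.Nonempty := Finset.card_pos.mp (by omega)
      obtain ⟨j, hj⟩ := this
      exact ⟨_, hmaps j hj⟩
    have hmul : K.card * N ≤ s'.card := by
      have : K.card * N ≤ (m + 1) * N := Nat.mul_le_mul_right _ hK
      omega
    obtain ⟨c, hc, hfib⟩ := Finset.exists_le_card_fiber_of_mul_le_card_of_maps_to hmaps hKne hmul
    set F := s'.filter (fun j => col i0 j = c) with hF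
    have hFs : ∀ j ∈ F, j ∈ s' ∧ col i0 j = c := fun j hj => Finset.mem_filter.mp hj
    by_cases hex : ∃ j ∈ F, ∃ k ∈ F, j < k ∧ col j k = c
    · obtain ⟨j, hj, k, hk, hjk, hcjk⟩ := hex
      refine ⟨i0, hi0s, j, Finset.mem_of_mem_erase (hFs j hj).1, k,
        Finset.mem_of_mem_erase (hFs k hk).1, hlt j (hFs j hj).1, hjk, ?_, ?_⟩
      · rw [(hFs j hj).2, hcjk]
      · rw [(hFs j hj).2, (hFs k hk).2]
    · push Not at hex
      obtain ⟨i, hi, j, hj, k, hk, h⟩ := hN (K.erase c)
        (by rw [Finset.card_erase_of_mem hc]; omega) F hfib col (by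
          intro i hi j hj hij
          exact Finset.mem_erase.mpr ⟨hex i hi j hj hij,
            hcol i (Finset.mem_of_mem_erase (hFs i hi).1) j
              (Finset.mem_of_mem_erase (hFs j hj).1) hij⟩)
      exact ⟨i, Finset.mem_of_mem_erase (hFs i hi).1, j, Finset.mem_of_mem_erase (hFs j hj).1, k,
        Finset.mem_of_mem_erase (hFs k hk).1, h⟩

/-! ## The algebras -/

/-- Composition of atoms. `none` is the identity atom, `col` gives each diversity atom a colour or
`none` (no colour). A triangle of diversity atoms is forbidden if all three have the same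
colour. -/
def Tri {L C : Type} (col : L → Option C) : Option L → Option L → Option L → Prop
  | none, y, z => z = y
  | some x, none, z => z = some x
  | some x, some y, none => x = y
  | some x, some y, some z => ¬ ∃ c, col x = some c ∧ col y = some c ∧ col z = some c

/-- The complex algebra. -/
def cm {L C : Type} (col : L → Option C) : Alg (Set (Option L)) where
  imp S S' := Sᶜ ∪ S'
  comp S S' := {z | ∃ x ∈ S, ∃ y ∈ S', Tri col x y z}

/-! ## Representing a complex algebra with a colourless atom -/

section Rep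

variable {L C : Type} (col : L → Option C) (b : L) (g : ℕ → ℕ × ℕ × L × L)

open Classical in
/-- Label of the pair `(w, u)`, `u < w`. The vertex `w` serves the demand
`(x, y, c, d) = g (w.unpair.2)`. -/
noncomputable def lower (w u : ℕ) : L :=
  let p := g w.unpair.2
  if h : p.1 < w ∧ p.2.1 < w then
    if (p.1 = p.2.1 ∧ p.2.2.1 = p.2.2.2) ∨ (p.1 ≠ p.2.1 ∧
        ¬ ∃ c, col p.2.2.1 = some c ∧ col p.2.2.2 = some c ∧
          col (lower (max p.1 p.2.1) (min p.1 p.2.1)) = some c) then
      if u = p.1 then p.2.2.1 else if u = p.2.1 then p.2.2.2 else b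
    else b
  else b
termination_by w
decreasing_by exact max_lt h.1 h.2

/-- Label of a pair of vertices. -/
noncomputable def lab (u v : ℕ) : Option L :=
  if u = v then none else some (lower col b g (max u v) (min u v))

theorem lab_symm (u v : ℕ) : lab col b g u v = lab col b g v u := by
  unfold lab
  rw [max_comm, min_comm]
  by_cases h : u = v
  · subst h; rfl
  · rw [if_neg h, if_neg (Ne.symm h)]

theorem lab_self (u : ℕ) : lab col b g u u = none := by simp [lab]

theorem lab_lt {u w : ℕ} (h : u < w) : lab col b g w u = some (lower col b g w u) := by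
  unfold lab
  rw [if_neg (ne_of_gt h), max_eq_left h.le, min_eq_right h.le]

theorem lab_ne {u v : ℕ} (h : u ≠ v) : ∃ c, lab col b g u v = some c := ⟨_, if_neg h⟩

/-- the labels of the three pairs in an increasing triple are not all of one colour -/
theorem lower_tri (hb : col b = none) {u v w : ℕ} (huv : u < v) (hvw : v < w) (c : C)
    (h1 : col (lower col b g w u) = some c) (h2 : col (lower col b g w v) = some c)
    (h3 : col (lower col b g v u) = some c) : False := by
  rw [lower] at h1 h2
  split_ifs at h1 with k1 k2 k3 k4 <;> split_ifs at h2 with m1 m2 <;>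
    first
    | (rw [hb] at h1; exact absurd h1 (by simp))
    | (rw [hb] at h2; exact absurd h2 (by simp))
    | skip
  all_goals first
    | omega
    | skip
  · -- `u = x`, `v = y`
    rcases k2 with ⟨e, _⟩ | ⟨_, k2⟩
    · omega
    · apply k2
      refine ⟨c, h1, h2, ?_⟩
      rw [← k3, ← m2, max_eq_right huv.le, min_eq_left huv.le]
      exact h3
  · rcases k2 with ⟨e, _⟩ | ⟨_, k2⟩
    · omega
    · apply k2
      refine ⟨c, h2, h1, ?_⟩
      rw [← k4, ← m1, max_eq_left huv.le, min_eq_right huv.le]
      exact h3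

theorem lab_tri (hb : col b = none) (u v w : ℕ) :
    ∃ α β γ, lab col b g u v = α ∧ lab col b g v w = β ∧ lab col b g u w = γ ∧ Tri col α β γ := by
  refine ⟨_, _, _, rfl, rfl, rfl, ?_⟩
  by_cases huv : u = v
  · subst huv
    rw [lab_self]
    rfl
  by_cases hvw : v = w
  · subst hvw
    obtain ⟨c, hc⟩ := lab_ne col b g huv
    rw [lab_self, hc]
    rfl
  by_cases huw : u = w
  · subst huw
    rw [lab_self, lab_symm col b g v u]
    obtain ⟨c, hc⟩ := lab_ne col b g huv
    rw [hc]
    rfl
  obtain ⟨c1, h1⟩ := lab_ne col b g huv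
  obtain ⟨c2, h2⟩ := lab_ne col b g hvw
  obtain ⟨c3, h3⟩ := lab_ne col b g huw
  rw [h1, h2, h3]
  rintro ⟨c, k1, k2, k3⟩
  -- order the three vertices
  have key : ∀ x y z : ℕ, x < y → y < z →
      ∀ a1 a2 a3 : L, lab col b g x y = some a1 → lab col b g y z = some a2 →
        lab col b g x z = some a3 → col a1 = some c → col a2 = some c → col a3 = some c →
        False := by
    intro x y z hxy hyz a1 a2 a3 e1 e2 e3 f1 f2 f3
    rw [lab_symm, lab_lt col b g hxy] at e1
    rw [lab_symm, lab_lt col b g hyz] at e2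
    rw [lab_symm, lab_lt col b g (hxy.trans hyz)] at e3
    cases e1; cases e2; cases e3
    exact lower_tri col b g hb hxy hyz c f3 f2 f1
  have s1 := h1
  have s2 := h2
  have s3 := h3
  rw [lab_symm] at s1 s2 s3
  rcases lt_trichotomy u v with a | a | a
  · rcases lt_trichotomy v w with a' | a' | a'
    · exact key u v w a a' _ _ _ h1 h2 h3 k1 k2 k3
    · exact hvw a'
    · rcases lt_trichotomy u w with a'' | a'' | a''
      · exact key u w v a'' a' _ _ _ h3 s2 h1 k3 k2 k1
      · exact huw a''
      · exact key w u v a'' a _ _ _ s3 h1 s2 k3 k1 k2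
  · exact huv a
  · rcases lt_trichotomy v w with a' | a' | a'
    · rcases lt_trichotomy u w with a'' | a'' | a''
      · exact key v u w a a'' _ _ _ s1 h3 h2 k1 k3 k2
      · exact huw a''
      · exact key v w u a' a'' _ _ _ h2 s3 s1 k2 k3 k1
    · exact hvw a'
    · exact key w v u a' a _ _ _ s2 s1 s3 k2 k1 k3

theorem lab_wit (hg : Function.Surjective g) (u v : ℕ) (c d : L)
    (h : Tri col (some c) (some d) (lab col b g u v)) :
    ∃ w, lab col b g u w = some c ∧ lab col b g w v = some d := by
  obtain ⟨m, hm⟩ := hg (u, v, c, d)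
  obtain ⟨w, hw⟩ : ∃ w, w = Nat.pair (u + v + 1) m := ⟨_, rfl⟩
  have hun : g w.unpair.2 = (u, v, c, d) := by rw [hw, Nat.unpair_pair]; exact hm
  have hle : u + v + 1 ≤ w := by rw [hw]; exact Nat.left_le_pair _ _
  have huw : u < w := by omega
  have hvw : v < w := by omega
  have hok : (u = v ∧ c = d) ∨ (u ≠ v ∧
        ¬ ∃ e, col c = some e ∧ col d = some e ∧
          col (lower col b g (max u v) (min u v)) = some e) := by
    by_cases huv : u = v
    · subst huv
      rw [lab_self] at h
      exact Or.inl ⟨rfl, h⟩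
    · right
      refine ⟨huv, ?_⟩
      unfold lab at h
      rw [if_neg huv] at h
      exact h
  refine ⟨w, ?_, ?_⟩
  · rw [lab_symm, lab_lt col b g huw, lower, hun]
    simp only [huw, hvw, and_self, dif_pos, if_pos hok, if_true]
  · rw [lab_lt col b g hvw, lower, hun]
    by_cases huv : u = v
    · subst huv
      have hcd : c = d := by
        rcases hok with h' | h'
        · exact h'.2
        · exact absurd rfl h'.1
      simp only [huw, and_self, dif_pos, if_pos hok, if_true]
      rw [hcd]
    · simp only [huw, hvw, and_self, dif_pos, if_pos hok, if_neg (Ne.symm huv), if_true]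

end Rep

/-- A complex algebra with a colourless atom and countably many atoms is representable. -/
theorem cm_rep {L C : Type} [Countable L] (col : L → Option C) (b : L) (hb : col b = none) :
    Representable.{0, 0} (cm col) := by
  have : Nonempty L := ⟨b⟩
  obtain ⟨g, hg⟩ := exists_surjective_nat (ℕ × ℕ × L × L)
  refine ⟨ℕ, Set.univ, fun _ _ _ _ _ => trivial,
    fun S => ⟨{p | lab col b g p.1 p.2 ∈ S}, Set.subset_univ _⟩, ?_, ?_⟩
  · intro S S' h
    have h' := congrArg Subtype.val h
    have h2 : ∀ u v : ℕ, lab col b g u v ∈ S ↔ lab col b g u v ∈ S' := fun u v =>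
      Set.ext_iff.mp h' (u, v)
    ext α
    have : ∃ u v, lab col b g u v = α := by
      rcases α with _ | c
      · exact ⟨0, 0, lab_self col b g 0⟩
      · obtain ⟨w, hw, _⟩ := lab_wit col b g hg 0 0 c c (by rw [lab_self]; rfl)
        exact ⟨0, w, hw⟩
    obtain ⟨u, v, huv⟩ := this
    rw [← huv]
    exact h2 u v
  · constructor
    · intro S S'
      apply Subtype.ext
      ext ⟨u, v⟩
      simp [cm, full]
    · intro S S'
      apply Subtype.ext
      ext ⟨u, w⟩
      constructor
      · rintro ⟨x, hx, y, hy, h⟩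
        change ∃ v, lab col b g u v ∈ S ∧ lab col b g v w ∈ S'
        rcases x with _ | x
        · refine ⟨u, by rw [lab_self]; exact hx, ?_⟩
          have : lab col b g u w = y := h
          rw [this]; exact hy
        · rcases y with _ | y
          · refine ⟨w, ?_, by rw [lab_self]; exact hy⟩
            have : lab col b g u w = some x := h
            rw [this]; exact hx
          · obtain ⟨v, h1, h2⟩ := lab_wit col b g hg u w x y h
            exact ⟨v, by rw [h1]; exact hx, by rw [h2]; exact hy⟩
      · rintro ⟨v, h1, h2⟩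
        obtain ⟨α, β, γ, e1, e2, e3, h⟩ := lab_tri col b g hb u v w
        refine ⟨α, by rw [← e1]; exact h1, β, by rw [← e2]; exact h2, ?_⟩
        change Tri col α β (lab col b g u w)
        rw [e3]; exact h

/-! ## Homomorphisms and evaluation -/

theorem Tm.eval_hom {A : Type u} {B : Type v} {S : Alg A} {S' : Alg B} {h : A → B}
    (hh : IsHom S S' h) (v : ℕ → A) (t : Tm) : t.eval S' (h ∘ v) = h (t.eval S v) := by
  induction t with
  | var n => rfl
  | imp s t ih1 ih2 => simp only [Tm.eval, ih1, ih2, hh.imp]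
  | comp s t ih1 ih2 => simp only [Tm.eval, ih1, ih2, hh.comp]

theorem Tm.eval_below {A : Type u} {S : Alg A} {k : ℕ} {v v' : ℕ → A} (h : ∀ i < k, v i = v' i)
    (t : Tm) (ht : t.Below k) : t.eval S v = t.eval S v' := by
  induction t with
  | var n => exact h n ht
  | imp s t ih1 ih2 => simp only [Tm.eval, ih1 ht.1, ih2 ht.2]
  | comp s t ih1 ih2 => simp only [Tm.eval, ih1 ht.1, ih2 ht.2]

/-- lifting to a higher universe -/
def lift {A : Type} (S : Alg A) : Alg (ULift.{u} A) where
  imp a b := ⟨S.imp a.down b.down⟩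
  comp a b := ⟨S.comp a.down b.down⟩

theorem lift_rep {A : Type} {S : Alg A} (h : Representable.{0, 0} S) :
    Representable.{u, w} (lift.{u} S) := by
  obtain ⟨X, T, hT, f, hf, hh⟩ := h
  refine ⟨ULift.{w} X, {p | (p.1.down, p.2.down) ∈ T}, fun x y z h1 h2 => hT _ _ _ h1 h2,
    fun a => ⟨{p | (p.1.down, p.2.down) ∈ (f a.down).1}, fun p hp => (f a.down).2 hp⟩, ?_, ?_⟩
  · intro a b hab
    have h1 := congrArg Subtype.val hab
    have h2 : f a.down = f b.down := by
      apply Subtype.ext
      ext ⟨x, y⟩
      exact (Set.ext_iff.mp h1) (⟨x⟩, ⟨y⟩)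
    exact ULift.ext _ _ (hf h2)
  · constructor
    · intro a b
      apply Subtype.ext
      ext p
      change (p.1.down, p.2.down) ∈ (f (S.imp a.down b.down)).1 ↔ _
      rw [hh.imp]
      rfl
    · intro a b
      apply Subtype.ext
      ext p
      change (p.1.down, p.2.down) ∈ (f (S.comp a.down b.down)).1 ↔ _
      rw [hh.comp]
      constructor
      · rintro ⟨y, h1, h2⟩
        exact ⟨⟨y⟩, h1, h2⟩
      · rintro ⟨y, h1, h2⟩
        exact ⟨y.down, h1, h2⟩

theorem lift_sat {A : Type} {S : Alg A} (e : Tm × Tm) : (lift.{u} S).Sat e ↔ S.Sat e := by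
  have hup : IsHom S (lift.{u} S) ULift.up := ⟨fun _ _ => rfl, fun _ _ => rfl⟩
  have hdown : IsHom (lift.{u} S) S ULift.down := ⟨fun _ _ => rfl, fun _ _ => rfl⟩
  constructor
  · intro h v
    have := h (ULift.up ∘ v)
    rw [Tm.eval_hom hup, Tm.eval_hom hup] at this
    exact congrArg ULift.down this
  · intro h v
    have := h (ULift.down ∘ v)
    rw [Tm.eval_hom hdown, Tm.eval_hom hdown] at this
    exact ULift.down_injective this

theorem valid_zero {e : Tm × Tm} (he : Valid.{u} e) {A : Type} {S : Alg A}
    (h : Representable.{0, 0} S) : S.Sat e :=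
  (lift_sat e).mp (he _ _ (lift_rep.{u, u} h))

/-! ## Equations in few variables hold in the algebras with many colours -/

/-- the colour of a diversity atom of the main algebras -/
def colA {n N : ℕ} (x : Fin n × Fin N) : Option (Fin n) := some x.1

/-- the main algebras -/
abbrev mainAlg (n N : ℕ) : Alg (Set (Option (Fin n × Fin N))) := cm (colA (n := n) (N := N))

theorem pre_hom {n N : ℕ} {L : Type} (col' : L → Option (Fin n)) (q : Fin n × Fin N → L)
    (hq : Function.Surjective q) (h1 : ∀ x l, col' (q x) = some l → x.1 = l)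
    (h2 : ∀ x z l, col' (q x) = some l → z.1 = l → col' (q z) = some l)
    (h4 : ∀ x, col' (q x) = none → ∃ x', q x' = q x ∧ x'.1 ≠ x.1) :
    IsHom (cm col') (mainAlg n N) (fun W => Option.map q ⁻¹' W) where
  imp W W' := rfl
  comp W W' := by
    ext z
    constructor
    · rintro ⟨β, hβ, β', hβ', h⟩
      rcases β with _ | b
      · refine ⟨none, hβ, z, ?_, rfl⟩
        have h' : Option.map q z = β' := h
        change Option.map q z ∈ W'
        rw [h']; exact hβ'
      · rcases β' with _ | b'
        · have h' : Option.map q z = some b := h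
          rcases z with _ | z
          · simp at h'
          · refine ⟨some z, ?_, none, hβ', rfl⟩
            change Option.map q (some z) ∈ W
            rw [h']; exact hβ
        · obtain ⟨x, rfl⟩ := hq b
          obtain ⟨y, rfl⟩ := hq b'
          rcases z with _ | z
          · have h' : q x = q y := h
            refine ⟨some x, hβ, some x, ?_, rfl⟩
            change some (q x) ∈ W'
            rw [h']; exact hβ'
          · have h' : ¬ ∃ c, col' (q x) = some c ∧ col' (q y) = some c ∧ col' (q z) = some c := h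
            have goal : ∃ x' y', q x' = q x ∧ q y' = q y ∧
                ¬ (x'.1 = y'.1 ∧ y'.1 = z.1) := by
              by_cases hall : x.1 = y.1 ∧ y.1 = z.1
              · rcases hx : col' (q x) with _ | l
                · obtain ⟨x', e1, e2⟩ := h4 x hx
                  exact ⟨x', y, e1, rfl, fun h => e2 (h.1.trans hall.1.symm)⟩
                · rcases hy : col' (q y) with _ | l'
                  · obtain ⟨y', e1, e2⟩ := h4 y hy
                    exact ⟨x, y', rfl, e1, fun h => e2 (h.2.trans hall.2.symm)⟩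
                  · exfalso
                    have a1 := h1 x l hx
                    have a2 := h1 y l' hy
                    have a3 : l = l' := by rw [← a1, ← a2]; exact hall.1
                    subst a3
                    have a4 := h2 x z l hx (by rw [← hall.2, ← hall.1]; exact a1)
                    exact h' ⟨l, hx, hy, a4⟩
              · exact ⟨x, y, rfl, rfl, hall⟩
            obtain ⟨x', y', e1, e2, e3⟩ := goal
            refine ⟨some x', ?_, some y', ?_, ?_⟩
            · change some (q x') ∈ W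
              rw [e1]; exact hβ
            · change some (q y') ∈ W'
              rw [e2]; exact hβ'
            · rintro ⟨c, c1, c2, c3⟩
              have d1 : x'.1 = c := Option.some.inj c1
              have d2 : y'.1 = c := Option.some.inj c2
              have d3 : z.1 = c := Option.some.inj c3
              exact e3 ⟨d1.trans d2.symm, d2.trans d3.symm⟩
    · rintro ⟨x, hx, y, hy, h⟩
      refine ⟨Option.map q x, hx, Option.map q y, hy, ?_⟩
      rcases x with _ | x
      · have h' : z = y := h
        rw [h']; rfl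
      · rcases y with _ | y
        · have h' : z = some x := h
          rw [h']; rfl
        · rcases z with _ | z
          · have h' : x = y := h
            rw [h']; rfl
          · rintro ⟨c, c1, c2, c3⟩
            exact h ⟨c, congrArg some (h1 x c c1), congrArg some (h1 y c c2),
              congrArg some (h1 z c c3)⟩

/-- Every equation in `k` variables that is valid in the representable algebras holds in the main
algebras with more than `2 ^ k` colours. -/
theorem sat_of_below {n N k : ℕ} (hn : 2 ^ k < n) (hN : 0 < N) {e : Tm × Tm}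
    (he : ∀ {A : Type} {S : Alg A}, Representable.{0, 0} S → S.Sat e)
    (hb1 : e.1.Below k) (hb2 : e.2.Below k) : (mainAlg n N).Sat e := by
  classical
  intro v
  let σ : Fin n × Fin N → (Fin k → Bool) := fun x i => decide (some x ∈ v i)
  let O : (Fin k → Bool) → Finset (Fin n) := fun τ => Finset.univ.filter fun l => ∃ s, σ (l, s) = τ
  let Cnt : Finset (Fin n) → Finset (Fin k → Bool) := fun M =>
    Finset.univ.filter fun τ => O τ ⊆ M ∧ (O τ).Nonempty
  obtain ⟨M, hM, hmax⟩ := Finset.exists_max_image
    (Finset.univ.filter fun M : Finset (Fin n) => M.card ≤ (Cnt M).card) Finset.card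
    ⟨∅, by simp⟩
  have hM' : M.card ≤ (Cnt M).card := (Finset.mem_filter.mp hM).2
  have hgood : ∀ τ, ∀ l ∈ O τ, l ∉ M → ∃ l' ∈ O τ, l' ∉ M ∧ l' ≠ l := by
    intro τ l hl hlM
    by_contra hcon
    push Not at hcon
    have hsub : O τ ⊆ insert l M := by
      intro l' hl'
      by_cases h : l' ∈ M
      · exact Finset.mem_insert_of_mem h
      · rw [hcon l' hl' h]; exact Finset.mem_insert_self _ _
    have hc : (insert l M).card = M.card + 1 := Finset.card_insert_of_notMem hlM
    have hlt : (Cnt M).card < (Cnt (insert l M)).card := by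
      apply Finset.card_lt_card
      constructor
      · intro τ' hτ'
        have := (Finset.mem_filter.mp hτ').2
        exact Finset.mem_filter.mpr ⟨Finset.mem_univ _,
          this.1.trans (Finset.subset_insert _ _), this.2⟩
      · intro h
        have h1 : τ ∈ Cnt (insert l M) :=
          Finset.mem_filter.mpr ⟨Finset.mem_univ _, hsub, ⟨l, hl⟩⟩
        have h2 := (Finset.mem_filter.mp (h h1)).2
        exact hlM (h2.1 hl)
    have := hmax (insert l M) (Finset.mem_filter.mpr ⟨Finset.mem_univ _, by omega⟩)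
    omega
  have hMn : M.card < n := by
    have h1 : (Cnt M).card ≤ Fintype.card (Fin k → Bool) := Finset.card_le_univ _
    simp only [Fintype.card_fun, Fintype.card_bool, Fintype.card_fin] at h1
    omega
  obtain ⟨l0, hl0⟩ : ∃ l0, l0 ∉ M := by
    by_contra hcon
    push Not at hcon
    have : M = Finset.univ := Finset.eq_univ_of_forall hcon
    rw [this, Finset.card_univ, Fintype.card_fin] at hMn
    omega
  -- the quotient
  let q0 : Fin n × Fin N → (Fin n × Fin N) ⊕ (Fin k → Bool) := fun x =>
    if x.1 ∈ M then Sum.inl x else Sum.inr (σ x)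
  let col0 : (Fin n × Fin N) ⊕ (Fin k → Bool) → Option (Fin n) :=
    Sum.elim (fun x => some x.1) (fun _ => none)
  have q0in : ∀ x, x.1 ∈ M → q0 x = Sum.inl x := fun x hx => if_pos hx
  have q0out : ∀ x, x.1 ∉ M → q0 x = Sum.inr (σ x) := fun x hx => if_neg hx
  let L := Set.range q0
  let col' : L → Option (Fin n) := fun t => col0 t.1
  let q : Fin n × Fin N → L := fun x => ⟨q0 x, x, rfl⟩
  have hq : Function.Surjective q := by
    rintro ⟨_, x, rfl⟩
    exact ⟨x, rfl⟩
  have hcol : ∀ x l, col' (q x) = some l → x.1 ∈ M ∧ x.1 = l := by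
    intro x l h
    by_cases hx : x.1 ∈ M
    · refine ⟨hx, ?_⟩
      have h' : col0 (q0 x) = some l := h
      rw [q0in x hx] at h'
      exact Option.some.inj h'
    · exfalso
      have h' : col0 (q0 x) = some l := h
      rw [q0out x hx] at h'
      exact absurd h' (by simp [col0])
  have hcolin : ∀ x, x.1 ∈ M → col' (q x) = some x.1 := by
    intro x hx
    change col0 (q0 x) = some x.1
    rw [q0in x hx]
    rfl
  have hcolout : ∀ x, x.1 ∉ M → col' (q x) = none := by
    intro x hx
    change col0 (q0 x) = none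
    rw [q0out x hx]
    rfl
  have hhom := pre_hom col' q hq (fun x l h => (hcol x l h).2)
    (fun x z l h hz => by
      have h1 := (hcol x l h)
      have : z.1 ∈ M := by rw [hz, ← h1.2]; exact h1.1
      rw [hcolin z this, hz])
    (fun x h => by
      have hx : x.1 ∉ M := by
        intro hx
        rw [hcolin x hx] at h
        exact absurd h (by simp)
      obtain ⟨l', hl', hl'M, hne⟩ := hgood (σ x) x.1
        (Finset.mem_filter.mpr ⟨Finset.mem_univ _, x.2, rfl⟩) hx
      obtain ⟨s, hs⟩ := (Finset.mem_filter.mp hl').2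
      refine ⟨(l', s), ?_, hne⟩
      apply Subtype.ext
      change q0 (l', s) = q0 x
      rw [q0out x hx, q0out (l', s) hl'M, hs])
  have hrep : Representable.{0, 0} (cm col') :=
    cm_rep col' (q (l0, ⟨0, hN⟩)) (hcolout _ hl0)
  -- the assignment
  let W : ℕ → Set (Option L) := fun i => {β | ∃ z ∈ v i, Option.map q z = β}
  have hW : ∀ i < k, v i = ((fun W => Option.map q ⁻¹' W) ∘ W) i := by
    intro i hi
    ext z
    constructor
    · intro hz
      exact ⟨z, hz, rfl⟩
    · rintro ⟨z', hz', hzz'⟩
      rcases z with _ | x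
      · rcases z' with _ | x'
        · exact hz'
        · exact absurd hzz' (by simp)
      · rcases z' with _ | x'
        · exact absurd hzz' (by simp)
        · have h1 : q x' = q x := Option.some.inj hzz'
          have h2 : q0 x' = q0 x := congrArg Subtype.val h1
          by_cases hx : x.1 ∈ M
          · by_cases hx' : x'.1 ∈ M
            · rw [q0in x hx, q0in x' hx'] at h2
              rw [← Sum.inl.inj h2]; exact hz'
            · rw [q0in x hx, q0out x' hx'] at h2
              exact absurd h2 (by simp)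
          · by_cases hx' : x'.1 ∈ M
            · rw [q0out x hx, q0in x' hx'] at h2
              exact absurd h2 (by simp)
            · rw [q0out x hx, q0out x' hx'] at h2
              have h3 := congrFun (Sum.inr.inj h2) ⟨i, hi⟩
              have h4 : decide (some x' ∈ v i) = decide (some x ∈ v i) := h3
              rw [decide_eq_decide] at h4
              exact h4.mp hz'
  rw [Tm.eval_below hW e.1 hb1, Tm.eval_below hW e.2 hb2, Tm.eval_hom hhom, Tm.eval_hom hhom,
    he hrep W]

/-! ## No representation with an empty bottom element -/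

section NoRep

variable {n N : ℕ} {X : Type w} {T : Set (X × X)} (hT : IsTransRel T)
  (h : Set (Option (Fin n × Fin N)) → Set (X × X)) (hsub : ∀ S, h S ⊆ T)
  (himp : ∀ S S', h ((mainAlg n N).imp S S') = (T \ h S) ∪ h S')
  (hcomp : ∀ S S', h ((mainAlg n N).comp S S') = {p | ∃ y, (p.1, y) ∈ h S ∧ (y, p.2) ∈ h S'})
  (h0 : h ∅ = ∅)

include hsub himp h0

theorem h_compl (S : Set (Option (Fin n × Fin N))) (p : X × X) :
    p ∈ h Sᶜ ↔ p ∈ T ∧ p ∉ h S := by
  have e : (mainAlg n N).imp S ∅ = Sᶜ := Set.union_empty _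
  rw [← e, himp, h0, Set.union_empty]
  rfl

theorem h_union (S S' : Set (Option (Fin n × Fin N))) (p : X × X) :
    p ∈ h (S ∪ S') ↔ p ∈ h S ∨ p ∈ h S' := by
  have e : (mainAlg n N).imp Sᶜ S' = S ∪ S' := by
    change Sᶜᶜ ∪ S' = _
    rw [compl_compl]
  rw [← e, himp]
  constructor
  · rintro (⟨h1, h2⟩ | h1)
    · left
      by_contra hcon
      exact h2 ((h_compl h hsub himp h0 S p).mpr ⟨h1, hcon⟩)
    · exact Or.inr h1
  · rintro (h1 | h1)
    · left
      exact ⟨hsub _ h1, fun h2 => ((h_compl h hsub himp h0 S p).mp h2).2 h1⟩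
    · exact Or.inr h1

theorem h_mono {S S' : Set (Option (Fin n × Fin N))} (hSS : S ⊆ S') {p : X × X} (hp : p ∈ h S) :
    p ∈ h S' := by
  have e : S ∪ S' = S' := Set.union_eq_right.mpr hSS
  rw [← e]
  exact (h_union h hsub himp h0 S S' p).mpr (Or.inl hp)

theorem h_univ (p : X × X) : p ∈ h Set.univ ↔ p ∈ T := by
  rw [← Set.compl_empty, h_compl h hsub himp h0, h0]
  simp

theorem h_atom {p : X × X} (hp : p ∈ T) : ∃ α, p ∈ h {α} := by
  classical
  have key : ∀ F : Finset (Option (Fin n × Fin N)), p ∈ h (F : Set (Option (Fin n × Fin N))) →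
      ∃ α, p ∈ h {α} := by
    intro F
    induction F using Finset.induction_on with
    | empty =>
      intro h1
      rw [Finset.coe_empty, h0] at h1
      exact absurd h1 (by simp)
    | insert a F ha ih =>
      intro h1
      rw [Finset.coe_insert, Set.insert_eq] at h1
      rcases (h_union h hsub himp h0 _ _ _).mp h1 with h2 | h2
      · exact ⟨a, h2⟩
      · exact ih h2
  apply key Finset.univ
  rw [Finset.coe_univ]
  exact (h_univ h hsub himp h0 p).mpr hp

theorem h_mem {p : X × X} {α : Option (Fin n × Fin N)} (hp : p ∈ h {α})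
    {S : Set (Option (Fin n × Fin N))} (hS : p ∈ h S) : α ∈ S := by
  by_contra hcon
  have h1 : p ∈ h Sᶜ := h_mono h hsub himp h0 (by
    intro β hβ
    rw [Set.mem_singleton_iff] at hβ
    rw [hβ]; exact hcon) hp
  exact ((h_compl h hsub himp h0 S p).mp h1).2 hS

include hT hcomp

theorem no_rep (hn : 1 < n) (K : ℕ)
    (hK : ∀ s : Finset ℕ, K ≤ s.card → ∀ col : ℕ → ℕ → Fin n,
      ∃ i ∈ s, ∃ j ∈ s, ∃ k ∈ s, i < j ∧ j < k ∧ col i j = col j k ∧ col i j = col i k)
    (hKN : K < N) (x y : X) (hxy : (x, y) ∈ T) : False := by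
  -- labels
  have mul : ∀ {u v z : X} {α β : Option (Fin n × Fin N)}, (u, v) ∈ h {α} → (v, z) ∈ h {β} →
      ∃ γ, Tri colA α β γ ∧ (u, z) ∈ h {γ} := by
    intro u v z α β h1 h2
    have h3 : (u, z) ∈ h ((mainAlg n N).comp {α} {β}) := by
      rw [hcomp]; exact ⟨v, h1, h2⟩
    obtain ⟨γ, hγ⟩ := h_atom h hsub himp h0 (hsub _ h3)
    obtain ⟨a, ha, b, hb, hab⟩ := h_mem h hsub himp h0 hγ h3
    rw [Set.mem_singleton_iff] at ha hb
    subst ha; subst hb
    exact ⟨γ, hab, hγ⟩
  have uniq : ∀ {p : X × X} {α β : Option (Fin n × Fin N)}, p ∈ h {α} → p ∈ h {β} → α = β := by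
    intro p α β h1 h2
    exact h_mem h hsub himp h0 h1 h2
  have spl : ∀ {u z : X} {α β γ : Option (Fin n × Fin N)}, (u, z) ∈ h {γ} → Tri colA α β γ →
      ∃ v, (u, v) ∈ h {α} ∧ (v, z) ∈ h {β} := by
    intro u z α β γ h1 h2
    have h3 : (u, z) ∈ h ((mainAlg n N).comp {α} {β}) := by
      refine h_mono h hsub himp h0 ?_ h1
      intro δ hδ
      rw [Set.mem_singleton_iff] at hδ
      subst hδ
      exact ⟨α, rfl, β, rfl, h2⟩
    rw [hcomp] at h3
    exact h3
  let z0 : Fin n := ⟨0, by omega⟩
  let z1 : Fin n := ⟨1, hn⟩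
  have hz : z1 ≠ z0 := by
    intro e
    have := congrArg Fin.val e
    exact absurd this (by simp [z0, z1])
  have tri1 : ∀ (s t r : Fin N) , Tri colA (some (z1, s)) (some (z0, t)) (some (z0, r)) := by
    rintro s t r ⟨c, c1, c2, -⟩
    exact hz ((Option.some.inj c1).trans (Option.some.inj c2).symm)
  have hN : 0 < N := by omega
  -- the chain
  have chain : ∀ m (hm : m < N), ∃ z : ℕ → X,
      (∀ j (hj : j ≤ m), (z j, y) ∈ h {some (z0, ⟨j, lt_of_le_of_lt hj hm⟩)}) ∧
      (∀ j < m, (z j, z (j + 1)) ∈ T) := by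
    intro m
    induction m with
    | zero =>
      intro hm
      obtain ⟨γ, hγ⟩ := h_atom h hsub himp h0 hxy
      have : ∃ z, (z, y) ∈ h {some (z0, (⟨0, hm⟩ : Fin N))} := by
        rcases γ with _ | c
        · obtain ⟨v, _, h2⟩ := spl hγ
            (show Tri colA (some (z0, (⟨0, hm⟩ : Fin N))) (some (z0, ⟨0, hm⟩)) none from rfl)
          exact ⟨v, h2⟩
        · obtain ⟨v, _, h2⟩ := spl hγ
            (show Tri colA (some (z1, (⟨0, hm⟩ : Fin N))) (some (z0, ⟨0, hm⟩)) (some c) by
              rintro ⟨c, c1, c2, -⟩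
              exact hz ((Option.some.inj c1).trans (Option.some.inj c2).symm))
          exact ⟨v, h2⟩
      obtain ⟨z, hz'⟩ := this
      refine ⟨fun _ => z, ?_, ?_⟩
      · intro j hj
        have : j = 0 := Nat.le_zero.mp hj
        subst this
        exact hz'
      · intro j hj
        omega
    | succ m ih =>
      intro hm
      obtain ⟨z, h1, h2⟩ := ih (by omega)
      have h3 := h1 m le_rfl
      obtain ⟨v, h4, h5⟩ := spl h3 (tri1 ⟨0, hN⟩ ⟨m + 1, hm⟩ ⟨m, by omega⟩)
      refine ⟨Function.update z (m + 1) v, ?_, ?_⟩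
      · intro j hj
        rcases Nat.lt_or_ge j (m + 1) with hj' | hj'
        · rw [Function.update_of_ne (by omega)]
          exact h1 j (by omega)
        · have : j = m + 1 := by omega
          subst this
          rw [Function.update_self]
          exact h5
      · intro j hj
        rcases Nat.lt_or_ge j m with hj' | hj'
        · rw [Function.update_of_ne (by omega), Function.update_of_ne (by omega)]
          exact h2 j hj'
        · have : j = m := by omega
          subst this
          rw [Function.update_self, Function.update_of_ne (by omega)]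
          exact hsub _ h4
  obtain ⟨z, hz1, hz2⟩ := chain K hKN
  have hlt : ∀ i j, i < j → j ≤ K → (z i, z j) ∈ T := by
    intro i j hij
    induction j with
    | zero => omega
    | succ j ih =>
      intro hj
      rcases Nat.lt_or_ge i j with h1 | h1
      · exact hT _ _ _ (ih h1 (by omega)) (hz2 j (by omega))
      · have : i = j := by omega
        subst this
        exact hz2 i (by omega)
  -- colours of the labels
  have hcol : ∀ i j, i < j → j ≤ K → ∃ c : Fin n × Fin N, (z i, z j) ∈ h {some c} := by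
    intro i j hij hj
    obtain ⟨γ, hγ⟩ := h_atom h hsub himp h0 (hlt i j hij hj)
    rcases γ with _ | c
    · exfalso
      obtain ⟨δ, hδ, h3⟩ := mul hγ (hz1 j hj)
      have e : δ = some (z0, ⟨j, lt_of_le_of_lt hj hKN⟩) := hδ
      subst e
      have := uniq h3 (hz1 i (by omega))
      have e1 := congrArg Prod.snd (Option.some.inj this)
      have e2 := congrArg Fin.val e1
      simp only at e2
      omega
    · exact ⟨c, hγ⟩
  classical
  obtain ⟨i, hi, j, hj, k, hk, hij, hjk, e1, e2⟩ := hK (Finset.range (K + 1)) (by simp)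
    (fun i j => if hh : i < j ∧ j ≤ K then (Classical.choose (hcol i j hh.1 hh.2)).1 else z0)
  have hkK : k ≤ K := by
    have := Finset.mem_range.mp hk
    omega
  have f1 : i < j ∧ j ≤ K := ⟨hij, by omega⟩
  have f2 : j < k ∧ k ≤ K := ⟨hjk, hkK⟩
  have f3 : i < k ∧ k ≤ K := ⟨by omega, hkK⟩
  simp only [dif_pos f1, dif_pos f2, dif_pos f3] at e1 e2
  have g1 := Classical.choose_spec (hcol i j f1.1 f1.2)
  have g2 := Classical.choose_spec (hcol j k f2.1 f2.2)
  have g3 := Classical.choose_spec (hcol i k f3.1 f3.2)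
  obtain ⟨γ, hγ, h3⟩ := mul g1 g2
  have e := uniq h3 g3
  rw [e] at hγ
  exact hγ ⟨_, rfl, congrArg some e1.symm, congrArg some e2.symm⟩

end NoRep

/-! ## The equation that fails -/

/-- join -/
def jn (s t : Tm) : Tm := .imp (.imp s t) t
/-- symmetric difference together with `z` -/
def df (z s t : Tm) : Tm := jn (.imp (.imp s t) z) (.imp (.imp t s) z)
/-- closure under multiplication by the top element -/
def cl (z c : Tm) : Tm :=
  jn (jn c (.comp (.imp z z) c)) (jn (.comp c (.imp z z)) (.comp (.comp (.imp z z) c) (.imp z z)))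

/-- the error term -/
def err {A : Type} (S : Alg A) (idx : A → ℕ) (z : Tm) (l : List (A × A)) : Tm :=
  l.foldr (fun p acc => jn (jn
    (df z (.imp (.var (idx p.1)) (.var (idx p.2))) (.var (idx (S.imp p.1 p.2))))
    (df z (.comp (.var (idx p.1)) (.var (idx p.2))) (.var (idx (S.comp p.1 p.2))))) acc) z

section Full

variable {X : Type w} {T : Set (X × X)} (hT : IsTransRel T) (V : ℕ → {a : Set (X × X) // a ⊆ T})

theorem ev_imp (s t : Tm) (p : X × X) : p ∈ ((Tm.imp s t).eval (full T hT) V).1 ↔
    (p ∈ T ∧ p ∉ (s.eval (full T hT) V).1) ∨ p ∈ (t.eval (full T hT) V).1 := Iff.rfl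

theorem ev_comp (s t : Tm) (x z : X) : (x, z) ∈ ((Tm.comp s t).eval (full T hT) V).1 ↔
    ∃ y, (x, y) ∈ (s.eval (full T hT) V).1 ∧ (y, z) ∈ (t.eval (full T hT) V).1 := Iff.rfl

theorem ev_jn (s t : Tm) (p : X × X) : p ∈ ((jn s t).eval (full T hT) V).1 ↔
    p ∈ (s.eval (full T hT) V).1 ∨ p ∈ (t.eval (full T hT) V).1 := by
  have h1 : p ∈ (s.eval (full T hT) V).1 → p ∈ T := fun h => (s.eval (full T hT) V).2 h
  unfold jn
  rw [ev_imp, ev_imp]
  tauto

theorem ev_df (z s t : Tm) (p : X × X) (hp : p ∈ T) (h : p ∉ ((df z s t).eval (full T hT) V).1) :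
    p ∈ (s.eval (full T hT) V).1 ↔ p ∈ (t.eval (full T hT) V).1 := by
  unfold df at h
  rw [ev_jn, ev_imp, ev_imp, ev_imp, ev_imp] at h
  tauto

theorem ev_err {A : Type} (S : Alg A) (idx : A → ℕ) (z : Tm) (l : List (A × A)) (p : X × X)
    (h : p ∉ ((err S idx z l).eval (full T hT) V).1) :
    p ∉ (z.eval (full T hT) V).1 ∧ ∀ q ∈ l,
      p ∉ ((df z (.imp (.var (idx q.1)) (.var (idx q.2)))
        (.var (idx (S.imp q.1 q.2)))).eval (full T hT) V).1 ∧
      p ∉ ((df z (.comp (.var (idx q.1)) (.var (idx q.2)))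
        (.var (idx (S.comp q.1 q.2)))).eval (full T hT) V).1 := by
  induction l with
  | nil => exact ⟨h, fun q hq => by simp at hq⟩
  | cons a l ih =>
    have h' : p ∉ ((jn (jn
      (df z (.imp (.var (idx a.1)) (.var (idx a.2))) (.var (idx (S.imp a.1 a.2))))
      (df z (.comp (.var (idx a.1)) (.var (idx a.2))) (.var (idx (S.comp a.1 a.2)))))
      (err S idx z l)).eval (full T hT) V).1 := h
    rw [ev_jn, ev_jn] at h'
    push Not at h'
    obtain ⟨h1, h2⟩ := ih h'.2
    refine ⟨h1, fun q hq => ?_⟩
    rcases List.mem_cons.mp hq with rfl | hq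
    · exact h'.1
    · exact h2 q hq

theorem ev_cl (z c : Tm) (x y : X) (h : (x, y) ∉ ((cl z c).eval (full T hT) V).1) (u v : X)
    (hu : u = x ∨ (x, u) ∈ T) (hv : v = y ∨ (v, y) ∈ T) :
    (u, v) ∉ (c.eval (full T hT) V).1 := by
  have top : ∀ p ∈ T, p ∈ ((Tm.imp z z).eval (full T hT) V).1 := by
    intro p hp
    rw [ev_imp]
    tauto
  intro hc
  apply h
  unfold cl
  rw [ev_jn, ev_jn, ev_jn]
  rcases hu with rfl | hu
  · rcases hv with rfl | hv
    · exact Or.inl (Or.inl hc)
    · right; left
      exact ⟨v, hc, top _ hv⟩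
  · rcases hv with rfl | hv
    · left; right
      exact ⟨u, top _ hu, hc⟩
    · right; right
      exact ⟨v, ⟨u, top _ hu, hc⟩, top _ hv⟩

end Full

/-! ### The equation in the main algebras -/

theorem cm_jn {L C : Type} (col : L → Option C) (V : ℕ → Set (Option L)) (s t : Tm)
    (hs : s.eval (cm col) V = ∅) (ht : t.eval (cm col) V = ∅) :
    (jn s t).eval (cm col) V = ∅ := by
  change (((s.eval (cm col) V)ᶜ ∪ t.eval (cm col) V)ᶜ ∪ t.eval (cm col) V) = ∅
  rw [hs, ht]
  simp

theorem cm_df {L C : Type} (col : L → Option C) (V : ℕ → Set (Option L)) (z s t : Tm)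
    (hz : z.eval (cm col) V = ∅) (hst : s.eval (cm col) V = t.eval (cm col) V) :
    (df z s t).eval (cm col) V = ∅ := by
  apply cm_jn
  · change (((s.eval (cm col) V)ᶜ ∪ t.eval (cm col) V)ᶜ ∪ z.eval (cm col) V) = ∅
    rw [hz, hst, Set.compl_union_self]
    simp
  · change (((t.eval (cm col) V)ᶜ ∪ s.eval (cm col) V)ᶜ ∪ z.eval (cm col) V) = ∅
    rw [hz, hst, Set.compl_union_self]
    simp

theorem cm_err {L C : Type} (col : L → Option C) (V : ℕ → Set (Option L))
    (idx : Set (Option L) → ℕ) (hV : ∀ a, V (idx a) = a) (z : Tm) (hz : z.eval (cm col) V = ∅)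
    (l : List (Set (Option L) × Set (Option L))) :
    (err (cm col) idx z l).eval (cm col) V = ∅ := by
  induction l with
  | nil => exact hz
  | cons a l ih =>
    apply cm_jn _ _ _ _ _ ih
    apply cm_jn
    · apply cm_df _ _ _ _ _ hz
      change (cm col).imp (V (idx a.1)) (V (idx a.2)) = V (idx _)
      rw [hV, hV, hV]
    · apply cm_df _ _ _ _ _ hz
      change (cm col).comp (V (idx a.1)) (V (idx a.2)) = V (idx _)
      rw [hV, hV, hV]

theorem cm_cl {L C : Type} (col : L → Option C) (V : ℕ → Set (Option L)) (z c : Tm)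
    (hc : c.eval (cm col) V = ∅) : (cl z c).eval (cm col) V = ∅ := by
  have e1 : ∀ s t : Tm, t.eval (cm col) V = ∅ → (Tm.comp s t).eval (cm col) V = ∅ := by
    intro s t ht
    apply Set.eq_empty_of_forall_notMem
    rintro γ ⟨x, _, y, hy, _⟩
    rw [ht] at hy
    exact hy
  have e2 : ∀ s t : Tm, s.eval (cm col) V = ∅ → (Tm.comp s t).eval (cm col) V = ∅ := by
    intro s t hs
    apply Set.eq_empty_of_forall_notMem
    rintro γ ⟨x, hx, _⟩
    rw [hs] at hx
    exact hx
  apply cm_jn
  · exact cm_jn _ _ _ _ hc (e1 _ _ hc)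
  · exact cm_jn _ _ _ _ (e2 _ _ hc) (e2 _ _ (e1 _ _ hc))

/-- For every number of colours above one and enough shades, some valid equation fails in the main
algebra. -/
theorem exists_failing {n : ℕ} (hn : 1 < n) : ∃ N, 0 < N ∧ ∃ e : Tm × Tm, Valid.{u} e ∧
    ¬ (mainAlg n N).Sat e := by
  classical
  obtain ⟨K, hK⟩ := ramsey (Fin n) n
  have hK' : ∀ s : Finset ℕ, K ≤ s.card → ∀ col : ℕ → ℕ → Fin n,
      ∃ i ∈ s, ∃ j ∈ s, ∃ k ∈ s, i < j ∧ j < k ∧ col i j = col j k ∧ col i j = col i k := by
    intro s hs col
    exact hK Finset.univ (by simp) s hs col (fun _ _ _ _ _ => Finset.mem_univ _)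
  obtain ⟨N, hKN⟩ : ∃ N, K < N := ⟨K + 1, Nat.lt_succ_self K⟩
  refine ⟨N, by omega, ?_⟩
  obtain ⟨idx, hidx⟩ := Countable.exists_injective_nat (Set (Option (Fin n × Fin N)))
  let z : Tm := .var (idx ∅)
  let E : Tm := cl z (err (mainAlg n N) idx z Finset.univ.toList)
  refine ⟨(jn (.var (idx Set.univ)) E, E), ?_, ?_⟩
  · -- validity
    rintro A S ⟨X, T, hT, f, hf, hh⟩ v
    apply hf
    rw [← Tm.eval_hom hh, ← Tm.eval_hom hh]
    set V := f ∘ v with hV
    apply Subtype.ext
    ext ⟨x, y⟩
    rw [ev_jn]
    constructor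
    · rintro (h1 | h1)
      · by_contra hE
        -- the interval below
        let T' : Set (X × X) := {p | p ∈ T ∧ (p.1 = x ∨ (x, p.1) ∈ T) ∧ (p.2 = y ∨ (p.2, y) ∈ T)}
        have hxy : (x, y) ∈ T := (V (idx Set.univ)).2 h1
        have hT' : IsTransRel T' := by
          rintro a b c ⟨h2, h3, h4⟩ ⟨h5, h6, h7⟩
          exact ⟨hT _ _ _ h2 h5, h3, h7⟩
        have hbad : ∀ p ∈ T', p ∉ ((err (mainAlg n N) idx z
            Finset.univ.toList).eval (full T hT) V).1 := by
          rintro ⟨a, b⟩ ⟨_, h3, h4⟩
          exact ev_cl hT V z _ x y hE a b h3 h4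
        have himp : ∀ S S' : Set (Option (Fin n × Fin N)), ∀ p ∈ T',
            (((p ∈ T ∧ p ∉ (V (idx S)).1) ∨ p ∈ (V (idx S')).1) ↔
              p ∈ (V (idx ((mainAlg n N).imp S S'))).1) := by
          intro S S' p hp
          have h2 := ((ev_err hT V _ idx z _ p (hbad p hp)).2 (S, S') (by simp)).1
          exact ev_df hT V _ _ _ p hp.1 h2
        have hcomp : ∀ S S' : Set (Option (Fin n × Fin N)), ∀ p ∈ T',
            ((∃ q, (p.1, q) ∈ (V (idx S)).1 ∧ (q, p.2) ∈ (V (idx S')).1) ↔
              p ∈ (V (idx ((mainAlg n N).comp S S'))).1) := by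
          intro S S' p hp
          have h2 := ((ev_err hT V _ idx z _ p (hbad p hp)).2 (S, S') (by simp)).2
          exact ev_df hT V _ _ _ p hp.1 h2
        refine no_rep hT' (fun S => (V (idx S)).1 ∩ T') (fun S => Set.inter_subset_right)
          ?_ ?_ ?_ hn K hK' hKN x y ⟨hxy, Or.inl rfl, Or.inl rfl⟩
        · intro S S'
          ext p
          constructor
          · rintro ⟨h2, h3⟩
            rcases (himp S S' p h3).mpr h2 with ⟨_, h4⟩ | h4
            · exact Or.inl ⟨h3, fun h5 => h4 h5.1⟩
            · exact Or.inr ⟨h4, h3⟩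
          · rintro (⟨h3, h4⟩ | ⟨h4, h3⟩)
            · exact ⟨(himp S S' p h3).mp (Or.inl ⟨h3.1, fun h5 => h4 ⟨h5, h3⟩⟩), h3⟩
            · exact ⟨(himp S S' p h3).mp (Or.inr h4), h3⟩
        · intro S S'
          ext ⟨a, c⟩
          constructor
          · rintro ⟨h2, h3⟩
            obtain ⟨b, h4, h5⟩ := (hcomp S S' (a, c) h3).mpr h2
            have h6 : (a, b) ∈ T := (V (idx S)).2 h4
            have h7 : (b, c) ∈ T := (V (idx S')).2 h5
            refine ⟨b, ⟨h4, h6, h3.2.1, ?_⟩, ⟨h5, h7, ?_, h3.2.2⟩⟩
            · rcases h3.2.2 with h8 | h8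
              · right
                have h9 : c = y := h8
                rw [← h9]; exact h7
              · exact Or.inr (hT _ _ _ h7 h8)
            · rcases h3.2.1 with h8 | h8
              · right
                have h9 : a = x := h8
                rw [← h9]; exact h6
              · exact Or.inr (hT _ _ _ h8 h6)
          · rintro ⟨b, ⟨h4, h6⟩, ⟨h5, h7⟩⟩
            have h8 : (a, c) ∈ T' := hT' _ _ _ h6 h7
            exact ⟨(hcomp S S' (a, c) h8).mp ⟨b, h4, h5⟩, h8⟩
        · apply Set.eq_empty_of_forall_notMem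
          rintro p ⟨h2, h3⟩
          exact (ev_err hT V _ idx z _ p (hbad p h3)).1 h2
      · exact h1
    · intro h1
      exact Or.inr h1
  · -- failure
    intro hsat
    let V : ℕ → Set (Option (Fin n × Fin N)) := Function.invFun idx
    have hV : ∀ a, V (idx a) = a := Function.leftInverse_invFun hidx
    have hz : z.eval (mainAlg n N) V = ∅ := hV ∅
    have hE : E.eval (mainAlg n N) V = ∅ :=
      cm_cl _ _ _ _ (cm_err _ _ idx hV z hz _)
    have h1 := hsat V
    have h2 : (jn (.var (idx Set.univ)) E).eval (mainAlg n N) V = Set.univ := by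
      change (((V (idx Set.univ))ᶜ ∪ E.eval (mainAlg n N) V)ᶜ ∪ E.eval (mainAlg n N) V) = _
      rw [hE, hV]
      simp
    have h3 : (jn (.var (idx Set.univ)) E).eval (mainAlg n N) V = E.eval (mainAlg n N) V := h1
    rw [h2, hE] at h3
    exact Set.empty_ne_univ h3.symm

/-- **The equational theory of representable implication semigroups is not finitely
axiomatisable.** For every `k`, every set `E` of valid equations in the first `k` variables has a
finite model that fails a valid equation; so `Eq` has no basis using finitely many variables, and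
in particular no finite basis. -/
theorem result :
    (∀ (k : ℕ) (E : Set (Tm × Tm)), (∀ e ∈ E, Valid.{u} e ∧ e.1.Below k ∧ e.2.Below k) →
      ∃ (A : Type u) (S : Alg A), Finite A ∧ (∀ e ∈ E, S.Sat e) ∧
        ∃ e, Valid.{u} e ∧ ¬ S.Sat e) ∧
    ¬ FinitelyAxiomatisable.{u} := by
  have main : ∀ (k : ℕ) (E : Set (Tm × Tm)),
      (∀ e ∈ E, Valid.{u} e ∧ e.1.Below k ∧ e.2.Below k) →
      ∃ (A : Type u) (S : Alg A), Finite A ∧ (∀ e ∈ E, S.Sat e) ∧
        ∃ e, Valid.{u} e ∧ ¬ S.Sat e := by
    intro k E hE
    have h1 : 1 < 2 ^ k + 1 := by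
      have : 0 < 2 ^ k := by positivity
      omega
    obtain ⟨N, hN, e, he, hfail⟩ := exists_failing.{u} h1
    refine ⟨ULift.{u} (Set (Option (Fin (2 ^ k + 1) × Fin N))), lift.{u} (mainAlg (2 ^ k + 1) N),
      inferInstance, ?_, e, he, ?_⟩
    · intro e' he'
      obtain ⟨v1, v2, v3⟩ := hE e' he'
      exact (lift_sat e').mpr (sat_of_below (Nat.lt_succ_self _) hN
        (fun hrep => valid_zero v1 hrep) v2 v3)
    · intro h
      exact hfail ((lift_sat e).mp h)
  refine ⟨main, ?_⟩
  rintro ⟨E, hfin, hE⟩
  -- a finite set of equations uses finitely many variables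
  have hb : ∀ t : Tm, ∃ k, ∀ k' ≥ k, t.Below k' := by
    intro t
    induction t with
    | var n => exact ⟨n + 1, fun k' hk' => hk'⟩
    | imp s t ih1 ih2 =>
      obtain ⟨k1, h1⟩ := ih1
      obtain ⟨k2, h2⟩ := ih2
      exact ⟨max k1 k2, fun k' hk' => ⟨h1 k' (le_trans (le_max_left _ _) hk'),
        h2 k' (le_trans (le_max_right _ _) hk')⟩⟩
    | comp s t ih1 ih2 =>
      obtain ⟨k1, h1⟩ := ih1
      obtain ⟨k2, h2⟩ := ih2
      exact ⟨max k1 k2, fun k' hk' => ⟨h1 k' (le_trans (le_max_left _ _) hk'),
        h2 k' (le_trans (le_max_right _ _) hk')⟩⟩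
  obtain ⟨k, hk⟩ : ∃ k, ∀ e ∈ E, e.1.Below k ∧ e.2.Below k := by
    choose m hm using hb
    obtain ⟨k, hk⟩ := (hfin.image (fun e : Tm × Tm => max (m e.1) (m e.2))).bddAbove
    refine ⟨k, fun e he => ?_⟩
    have h1 : max (m e.1) (m e.2) ≤ k := hk ⟨e, he, rfl⟩
    exact ⟨hm _ k (le_trans (le_max_left _ _) h1), hm _ k (le_trans (le_max_right _ _) h1)⟩
  have hval : ∀ e ∈ E, Valid.{u} e := fun e he => (hE e).mpr (fun A S hS => hS e he)
  obtain ⟨A, S, _, hS, e, he, hfail⟩ := main k E (fun e he => ⟨hval e he, hk e he⟩)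
  exact hfail ((hE e).mp he A S hS)

end Pool.Agent.Results.MP_634bde_lc.NoFiniteBasis
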